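import Pool.Agent.Y205.AV.Win
import Pool.Agent.Y205.AV.Three
import Pool.Agent.Y536.SH.Full
import Pool.Agent.Y536.SH.Tame
import Pool.Agent.TH885.CO.Plus

set_option autoImplicit false

/-!
# Large classes, their Weyl group orbits, and simple points

The theorems `Pool.Agent.Y205.AV.big_vectors` and `Pool.Agent.Y205.FW.inf_all` for a vector on some
of the points, with simple points at the others.
-/

namespace Pool.Agent.Y205.AV

open MvPolynomial Pool.Agent.W609 Pool.Agent.W609.CR Pool.Agent.TH167 Pool.Agent.TH167.SH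
  Pool.Agent.H932R3 Pool.Agent.TH442.NF

/-- The class `(d; w)` is large: there are a set `S` of points and numbers `μ`, `s` such that
`w i ≤ μ` for `i ∈ S`, `w i ≤ 1` for `i ∉ S`, the numbers `w i`, `i ∈ S`, take at most `s` different
values, and with `χ = (d + 2).choose 2 - ∑_S (w i + 1).choose 2`
* `∑_S w i + 4 |χ| ≥ 25000 (μ + 1) ^ 2`, or
* `|χ| ≥ ∑_S w i + 26 (μ + 1) ^ 2`, or
* `∑_S w i ^ 2 ≥ 40000 s μ ^ 2` and `w i ≥ 1` for `i ∈ S`. -/
def Large {n : ℕ} (d : ℕ) (w : Fin n → ℕ) : Prop :=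
  ∃ (S : Finset (Fin n)) (μ s : ℕ), (∀ i ∈ S, w i ≤ μ) ∧ (∀ i ∉ S, w i ≤ 1) ∧
    (S.image w).card ≤ s ∧
    (25000 * ((μ : ℤ) + 1) ^ 2 ≤ ∑ i ∈ S, (w i : ℤ) +
        4 * |((d + 2).choose 2 : ℤ) - ∑ i ∈ S, ((w i + 1).choose 2 : ℤ)| ∨
      ∑ i ∈ S, (w i : ℤ) + 26 * ((μ : ℤ) + 1) ^ 2 ≤
        |((d + 2).choose 2 : ℤ) - ∑ i ∈ S, ((w i + 1).choose 2 : ℤ)| ∨
      (S.Nonempty ∧ (∀ i ∈ S, 1 ≤ w i) ∧ 40000 * s * μ ^ 2 ≤ ∑ i ∈ S, w i ^ 2))

/-- Large classes have the expected dimension at generic points. -/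
theorem large_exp {n : ℕ} {d : ℕ} {w : Fin n → ℕ} (h : Large d w)
    {K : Type} [Field K] [CharZero K] {P : Fin n → Fin 2 → K}
    (hP : AlgebraicIndependent ℚ (fun ij : Fin n × Fin 2 => P ij.1 ij.2)) : ExpDim K w P d := by
  classical
  obtain ⟨S, μ, s, hS, h1, hs, h2⟩ := h
  obtain ⟨e, he⟩ : ∃ e : Fin S.card ↪ Fin n, Finset.univ.map e = S :=
    ⟨(S.orderEmbOfFin rfl).toEmbedding, S.map_orderEmbOfFin_univ rfl⟩
  have hmem : ∀ j, e j ∈ S := fun j => by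
    have h3 : e j ∈ Finset.univ.map e := Finset.mem_map.2 ⟨j, Finset.mem_univ _, rfl⟩
    rw [he] at h3
    exact h3
  have hsum : ∀ f : Fin n → ℤ, ∑ j, f (e j) = ∑ i ∈ S, f i := by
    intro f
    have h3 : ∑ i ∈ Finset.univ.map e, f i = ∑ j, f (e j) := Finset.sum_map _ _ _
    rw [← h3, he]
  have hsumN : ∀ f : Fin n → ℕ, ∑ j, f (e j) = ∑ i ∈ S, f i := by
    intro f
    have h3 : ∑ i ∈ Finset.univ.map e, f i = ∑ j, f (e j) := Finset.sum_map _ _ _
    rw [← h3, he]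
  have hex : ∃ F : MvPolynomial (Fin S.card × Fin 2) ℚ, F ≠ 0 ∧ ∀ {L : Type} [Field L] [CharZero L]
      (Q : Fin S.card → Fin 2 → L),
      MvPolynomial.aeval (fun ij : Fin S.card × Fin 2 => Q ij.1 ij.2) F ≠ 0 →
      ExpDim L (fun j => w (e j)) Q d := by
    have h4 := gap_eq (fun j => w (e j)) d
    have h5 := hsum fun i => (w i : ℤ)
    have h6 := hsum fun i => ((w i + 1).choose 2 : ℤ)
    rcases h2 with h2 | h2 | ⟨h20, h21, h2⟩
    · obtain ⟨F, hF, hF'⟩ := big_vectors fun j => w (e j)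
      refine ⟨F, hF, fun {L} _ _ Q hQ => hF' Q hQ d μ (fun j => hS _ (hmem j)) (Or.inl ?_)⟩
      rw [← h5, ← h6] at h2
      have h7 : ((25000 * (μ + 1) ^ 2 : ℕ) : ℤ) ≤
          ((∑ j, w (e j) + 2 * gap (fun j => w (e j)) d : ℕ) : ℤ) := by
        push_cast
        rw [h4]
        linarith
      exact_mod_cast h7
    · obtain ⟨F, hF, hF'⟩ := big_vectors fun j => w (e j)
      refine ⟨F, hF, fun {L} _ _ Q hQ => hF' Q hQ d μ (fun j => hS _ (hmem j)) (Or.inr ?_)⟩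
      rw [← h5, ← h6] at h2
      have h7 : ((2 * ∑ j, w (e j) + 52 * (μ + 1) ^ 2 : ℕ) : ℤ) ≤
          ((gap (fun j => w (e j)) d : ℕ) : ℤ) := by
        push_cast
        rw [h4]
        linarith
      exact_mod_cast h7
    · have hn : 1 ≤ S.card := Finset.card_pos.2 h20
      obtain ⟨F, hF, hF'⟩ := Pool.Agent.Y205.FW.inf_all (w := fun j => w (e j)) (μ := μ) (r := s) hn
        (fun j => h21 _ (hmem j)) (fun j => hS _ (hmem j))
        (le_trans (Finset.card_le_card (fun x hx => by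
          obtain ⟨j, -, hj⟩ := Finset.mem_image.1 hx
          rw [← hj]
          exact Finset.mem_image_of_mem w (hmem j))) hs)
        (by rw [hsumN fun i => w i ^ 2]; exact h2)
      exact ⟨F, hF, fun {L} _ _ Q hQ => hF' Q hQ d⟩
  obtain ⟨F, hF, hF'⟩ := hex
  have h3 := Pool.Agent.TH885.CO.exp_plus e (w := w) (d := d)
    (fun i hi => h1 i (by rw [← he]; exact hi)) ⟨F, hF, fun Q hQ => hF' Q hQ⟩ hP
  have h4 : Module.finrank K ↥(Pool.Agent.TH167.SHDefs.sys P d w) =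
      (d + 2).choose 2 - ∑ j, (w j + 1).choose 2 := by
    rw [Pool.Agent.TH885.CO.sys_eq]
    exact h3
  exact h4

/-- The Weyl group orbit of a standard large class. -/
theorem orbit_large {n : ℕ} (hn : 4 ≤ n) {K : Type} [Field K] [CharZero K] {P : Fin n → Fin 2 → K}
    (hP : AlgebraicIndependent ℚ (fun ij : Fin n × Fin 2 => P ij.1 ij.2)) {d : ℕ} {w : Fin n → ℕ}
    {d' : ℕ} {w' : Fin n → ℕ} (h : Ch (cls d w) (cls d' w'))
    (hs : Pool.Agent.Y536.SH.Standard d' w') (hG : Large d' w') : ExpDim K w P d :=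
  up_enef hP h (enef_of_std hn P hs) (large_exp hG hP)

end Pool.Agent.Y205.AV
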