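import Pool.Agent.Y205.AV.Blocks
import Pool.Agent.Y205.AV.EmpArb
import Pool.Agent.Y205.FW.Inf

/-! **All multiplicities**: the expected dimension outside a window of the order of the square of
the largest multiplicity. -/

set_option autoImplicit false

namespace Pool.Agent.Y205.AV

open Finset Module Pool.Agent.TH176.Nag Pool.Agent.TH603.Sur Pool.Agent.TH763.DB Pool.Agent.TH2.NU
open Pool.Agent.Y205.MD H932R3 Pool.Agent.Y205.FW
open Pool.Agent.TH641.UM (ms EmpM)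
open Pool.Agent.TH387.SH (TF coe_TF card_TF)
open Pool.Agent.TH745.MN (TZ_mono)

theorem sq1_eq (M : Multiset ℕ) : sq1 M = sqs M + 2 * M.sum + M.card := by
  induction M using Multiset.induction_on with
  | empty => simp [sq1, sqs]
  | cons a M ih =>
    rw [sq1_cons, sqs_cons, Multiset.sum_cons, Multiset.card_cons, ih]
    ring

/-- the bound of the corank from emptiness -/
theorem crkM_arb {M : Multiset ℕ} {B d : ℕ} (hB : ∀ v ∈ M, 1 ≤ v ∧ v ≤ B) (hB1 : 1 ≤ B) :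
    crkM (TF d) M = 0 ∨ 2 * crkM (TF d) M + sqs M ≤ (d + 1) * (d + 2) + 52 * B ^ 2 := by
  have hTF : ∀ e, 2 * (TF e).card = (e + 1) * (e + 2) := fun e => by
    rw [card_TF]
    exact Pool.Agent.TH2.NU.two_choose (e + 1)
  rcases Nat.lt_or_ge (sqs M) (52 * B ^ 2) with hlt | hge
  · right
    have h1 : crkM (TF d) M ≤ (TF d).card := by
      unfold crkM
      obtain ⟨T, -, h2, -⟩ := crk_spec (TF d) (vec M)
      omega
    have h2 := hTF d
    omega
  · obtain ⟨e, he⟩ : ∃ e, e = Nat.sqrt (sqs M - 52 * B ^ 2) := ⟨_, rfl⟩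
    have h1 : e ^ 2 ≤ sqs M - 52 * B ^ 2 := by rw [he]; exact Nat.sqrt_le' _
    have h2 : sqs M - 52 * B ^ 2 < (e + 1) ^ 2 := by rw [he]; exact Nat.lt_succ_sqrt' _
    have hE : EmpM M (TZ e) := EmpM_arb hB hB1 (by omega)
    have hE' : Emp (vec M) (TZ e) := hE
    rcases le_or_gt d e with hde | hde
    · left
      unfold crkM
      apply crk_zero_of_Emp
      rw [coe_TF]
      exact hE'.mono (TZ_mono hde)
    · right
      have hsub : TF e ⊆ TF d := by
        rw [← coe_subset, coe_TF, coe_TF]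
        exact TZ_mono hde.le
      have hcard := card_le_card hsub
      have h3 : crkM (TF d) M ≤ (TF d).card - (TF e).card :=
        crk_le ⟨TF e, hsub, by omega, by rw [coe_TF]; exact hE'⟩
      have h4 := hTF e
      have h5 := hTF d
      have h6 : (e + 1) ^ 2 ≤ (e + 1) * (e + 2) := by
        rw [sq]
        exact Nat.mul_le_mul_left _ (by omega)
      omega

theorem leaf_all (hNod : StNodes) {M : Multiset ℕ} {μ d c G0 G1 T X L δ e0 e1 : ℕ}
    (hM : ∀ x ∈ M, 1 ≤ x ∧ x + 1 ≤ 8 * (μ + 1)) (hL : 17 * M.sum ≤ 136 * X + 4 * G1 + 17 * e1)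
    (hn : M.card ≤ X + e0) (he1 : 2 * e1 ≤ 63 * (μ + 1) ^ 2) (he0 : 4 * e0 ≤ 63 * (μ + 1) ^ 2)
    (hX : L = 64 * X + e1) (hcd : Pool.Agent.TH2.NU.condM M + G0 = T + G1) (hgain : 56 * X ≤ 2 * (G0 + G1))
    (hδ : 2 * (TF d).card = 2 * T + δ ∨ 2 * (TF d).card + δ = 2 * T)
    (h : 25000 * (μ + 1) ^ 2 ≤ L + 2 * δ) (hc : (TF d).card ≤ c + T) :
    crkM (TF d) M ≤ c + G0 := by
  obtain ⟨P, hP⟩ : ∃ P, P = (μ + 1) ^ 2 := ⟨_, rfl⟩
  rw [← hP] at he1 he0 h
  have hY : (8 * (μ + 1)) ^ 2 = 64 * P := by rw [hP]; ring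
  have hTF : 2 * (TF d).card = (d + 1) * (d + 2) := by
    rw [card_TF]
    exact Pool.Agent.TH2.NU.two_choose (d + 1)
  have hc2 : 2 * Pool.Agent.TH2.NU.condM M = sqs M + M.sum := by
    have h1 := two_cond (vec M)
    have h2 : cond (vec M) = Pool.Agent.TH2.NU.condM M := by
      unfold Pool.Agent.TH603.Sur.cond Pool.Agent.TH2.NU.condM
      exact sum_vec M fun x => (x + 1).choose 2
    rw [h2] at h1
    rw [h1, sum_vec M fun x => x ^ 2, sum_vec M fun x => x, Multiset.map_id']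
    rfl
  have hsq := sq1_eq M
  by_cases hsur : sq1 M + 42 * (8 * (μ + 1)) ^ 2 ≤ (d + 1) * (d + 2)
  · have h1 : SurM M (TZ d) := SurM_arb hNod (fun v hv => (hM v hv).2) (by omega) hsur
    have h2 : crk (TF d) (vec M) + cond (vec M) ≤ (TF d).card :=
      crk_of_Sur (by rw [coe_TF]; exact h1)
    have h3 : cond (vec M) = Pool.Agent.TH2.NU.condM M := by
      unfold Pool.Agent.TH603.Sur.cond Pool.Agent.TH2.NU.condM
      exact sum_vec M fun x => (x + 1).choose 2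
    unfold crkM
    omega
  · push Not at hsur
    rw [hY] at hsur
    rcases crkM_arb (M := M) (B := 8 * (μ + 1)) (d := d) (fun v hv =>
      ⟨(hM v hv).1, by have := (hM v hv).2; omega⟩) (by omega) with h0 | h0
    · rw [h0]
      exact Nat.zero_le _
    · rw [hY] at h0
      omega

theorem ex_all {n : ℕ} {w : Fin n → ℕ} {μ d δ : ℕ} (hpos : ∀ p, 1 ≤ w p) (hμ : ∀ p, w p ≤ μ)
    (hδ : (d + 1) * (d + 2) = 2 * ∑ p, (w p + 1).choose 2 + δ ∨
      (d + 1) * (d + 2) + δ = 2 * ∑ p, (w p + 1).choose 2)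
    (h : 25000 * (μ + 1) ^ 2 ≤ ∑ p, w p + 2 * δ) : Ex (TF d) w := by
  classical
  have hNod : StNodes := Pool.Agent.Y901.FW.nodes
  obtain ⟨V, hV⟩ : ∃ V : Finset ℕ, V = univ.image w := ⟨_, rfl⟩
  have hVv : ∀ v ∈ V, 1 ≤ v ∧ v ≤ μ := by
    intro v hv
    rw [hV] at hv
    obtain ⟨p, -, hp⟩ := mem_image.1 hv
    rw [← hp]
    exact ⟨hpos p, hμ p⟩
  obtain ⟨L, hL⟩ : ∃ L, L = ∑ p, w p := ⟨_, rfl⟩
  obtain ⟨T, hTd⟩ : ∃ T, T = ∑ p, (w p + 1).choose 2 := ⟨_, rfl⟩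
  have hcT : cond w = T := hTd.symm
  rw [← hTd] at hδ
  rw [← hL] at h
  have hTF : 2 * (TF d).card = (d + 1) * (d + 2) := by
    rw [card_TF]
    exact Pool.Agent.TH2.NU.two_choose (d + 1)
  -- the classes
  obtain ⟨Nf, hNf⟩ : ∃ Nf : ℕ → ℕ, ∀ v, Nf v = nb w v / 64 := ⟨_, fun _ => rfl⟩
  obtain ⟨Rf, hRf⟩ : ∃ Rf : ℕ → ℕ, ∀ v, Rf v = nb w v % 64 := ⟨_, fun _ => rfl⟩
  have hNR : ∀ v, 64 * Nf v + Rf v = nb w v := fun v => by
    rw [hNf, hRf]
    exact Nat.div_add_mod _ _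
  have hR63 : ∀ v, Rf v ≤ 63 := fun v => by
    rw [hRf]
    have := Nat.mod_lt (nb w v) (show 0 < 64 by norm_num)
    omega
  obtain ⟨E, hE⟩ : ∃ E : Multiset ℕ, E = ∑ v ∈ V, Multiset.replicate (Rf v) v := ⟨_, rfl⟩
  have hEsum : ∀ t : ℕ → ℕ, (E.map t).sum = ∑ v ∈ V, Rf v * t v := by
    intro t
    rw [hE, map_sum_fin]
    refine sum_congr rfl fun v _ => ?_
    rw [Multiset.map_replicate, Multiset.sum_replicate]
    rfl
  have hwsum : ∀ t : ℕ → ℕ, ∑ p, t (w p) = ∑ v ∈ V, nb w v * t v := by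
    intro t
    rw [Finset.sum_comp t w, hV]
    rfl
  have hw : ∀ t : ℕ → ℕ, ∑ p, t (w p) =
      ((∑ v ∈ V, Multiset.replicate (4 ^ 3 * Nf v) v + E).map t).sum := by
    intro t
    rw [Multiset.map_add, Multiset.sum_add, hEsum, map_sum_fin, hwsum, ← sum_add_distrib]
    refine sum_congr rfl fun v _ => ?_
    rw [Multiset.map_replicate, Multiset.sum_replicate, smul_eq_mul, ← hNR v]
    ring
  have hposS : ∀ u ∈ TF d, 0 ≤ u.1 ∧ 0 ≤ u.2 := by
    intro u hu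
    have h1 : u ∈ TZ d := by rw [← coe_TF]; exact mem_coe.2 hu
    exact ⟨h1.1, h1.2.1⟩
  unfold Ex
  rw [← crkM_eq hw, hcT]
  refine classes_acc hposS 3 Nf V fun a g0 g1 hleaf => ?_
  have hlo : ∀ v ∈ V, 8 * v ≤ a v := fun v hv => by simpa using (hleaf v hv).lo
  have hhi : ∀ v ∈ V, a v + 1 ≤ 8 * (v + 1) := fun v hv => by simpa using (hleaf v hv).hi
  have hcd : ∀ v ∈ V, Nf v * (a v + 1).choose 2 + g0 v =
      64 * Nf v * (v + 1).choose 2 + g1 v := fun v hv => by simpa using (hleaf v hv).cd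
  have hga : ∀ v ∈ V, Nf v * v * 64 ≤ 2 * (g0 v + g1 v) + Nf v * v * 8 := fun v hv => by
    simpa using (hleaf v hv).gain
  obtain ⟨M, hM⟩ : ∃ M, M = ∑ v ∈ V, Multiset.replicate (Nf v) (a v) + E := ⟨_, rfl⟩
  rw [← hM]
  have hMsum : ∀ t : ℕ → ℕ, (M.map t).sum = ∑ v ∈ V, (Nf v * t (a v) + Rf v * t v) := by
    intro t
    rw [hM, Multiset.map_add, Multiset.sum_add, hEsum, map_sum_fin, ← sum_add_distrib]
    refine sum_congr rfl fun v _ => ?_
    rw [Multiset.map_replicate, Multiset.sum_replicate, smul_eq_mul]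
  have hMV : ∀ x ∈ M, ∃ v ∈ V, x = a v ∨ x = v := by
    intro x hx
    rw [hM, Multiset.mem_add, hE] at hx
    rcases hx with hx | hx
    · obtain ⟨v, hv, hx⟩ := mem_sum_fin V _ x hx
      exact ⟨v, hv, Or.inl (Multiset.eq_of_mem_replicate hx)⟩
    · obtain ⟨v, hv, hx⟩ := mem_sum_fin V _ x hx
      exact ⟨v, hv, Or.inr (Multiset.eq_of_mem_replicate hx)⟩
  obtain ⟨X, hX⟩ : ∃ X, X = ∑ v ∈ V, Nf v * v := ⟨_, rfl⟩
  obtain ⟨e1, he1⟩ : ∃ e1, e1 = ∑ v ∈ V, Rf v * v := ⟨_, rfl⟩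
  obtain ⟨e0, he0⟩ : ∃ e0, e0 = ∑ v ∈ V, Rf v := ⟨_, rfl⟩
  have hVsub : V ⊆ Finset.Icc 1 μ := fun v hv => Finset.mem_Icc.2 (hVv v hv)
  have hLX : L = 64 * X + e1 := by
    have h1 := hwsum fun x => x
    rw [hL, h1, hX, he1, mul_sum, ← sum_add_distrib]
    refine sum_congr rfl fun v _ => ?_
    rw [← hNR v]
    ring
  have hsumV : 2 * ∑ v ∈ V, v ≤ μ * (μ + 1) := by
    have h1 : ∑ v ∈ V, v ≤ ∑ v ∈ Finset.range (μ + 1), v :=
      sum_le_sum_of_subset fun v hv => by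
        rw [Finset.mem_range]
        have := (hVv v hv).2
        omega
    have h2 := Finset.sum_range_id_mul_two (μ + 1)
    rw [Nat.add_sub_cancel] at h2
    have e : μ * (μ + 1) = (μ + 1) * μ := mul_comm _ _
    omega
  have hcardV : V.card ≤ μ := by
    have := card_le_card hVsub
    rwa [Nat.card_Icc, Nat.add_sub_cancel] at this
  have hP1 : μ * (μ + 1) ≤ (μ + 1) ^ 2 := by
    rw [sq]
    exact Nat.mul_le_mul_right _ (Nat.le_succ μ)
  have hP2 : 4 * μ ≤ (μ + 1) ^ 2 := by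
    zify
    have := sq_nonneg ((μ : ℤ) - 1)
    linarith [this]
  refine leaf_all hNod (μ := μ) (d := d) (c := (TF d).card - T) (G0 := ∑ v ∈ V, g0 v)
    (G1 := ∑ v ∈ V, g1 v) (T := T) (X := X) (L := L) (δ := δ) (e0 := e0) (e1 := e1)
    ?_ ?_ ?_ ?_ ?_ hLX ?_ ?_ (by rw [hTF]; exact hδ) h (by omega)
  · intro x hx
    obtain ⟨v, hv, h | h⟩ := hMV _ hx
    · have h1 := hlo v hv
      have h2 := hVv v hv
      have h3 := hhi v hv
      constructor <;> omega
    · have h2 := hVv v hv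
      constructor <;> omega
  · have h1 := hMsum fun x => x
    rw [Multiset.map_id'] at h1
    have h2 : ∑ v ∈ V, 17 * (Nf v * a v + Rf v * v) ≤
        ∑ v ∈ V, (136 * (Nf v * v) + 4 * g1 v + 17 * (Rf v * v)) := by
      refine sum_le_sum fun v hv => ?_
      have h3 := leaf_lin (hVv v hv).1 (hlo v hv) (hcd v hv) (hga v hv)
      omega
    have h4 : ∑ v ∈ V, (136 * (Nf v * v) + 4 * g1 v + 17 * (Rf v * v)) =
        136 * X + 4 * ∑ v ∈ V, g1 v + 17 * e1 := by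
      rw [sum_add_distrib, sum_add_distrib, ← mul_sum, ← mul_sum, ← mul_sum, ← hX, ← he1]
    rw [← mul_sum] at h2
    rw [h1]
    omega
  · have h1 := hMsum fun _ => 1
    simp only [mul_one, Multiset.map_const', Multiset.sum_replicate, smul_eq_mul] at h1
    rw [h1, sum_add_distrib, ← he0]
    refine Nat.add_le_add_right ?_ _
    rw [hX]
    refine sum_le_sum fun v hv => ?_
    calc Nf v = Nf v * 1 := (mul_one _).symm
      _ ≤ Nf v * v := Nat.mul_le_mul_left _ (hVv v hv).1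
  · have h1 : e1 ≤ 63 * ∑ v ∈ V, v := by
      rw [he1, mul_sum]
      exact sum_le_sum fun v _ => Nat.mul_le_mul_right _ (hR63 v)
    omega
  · have h1 : e0 ≤ 63 * V.card := by
      rw [he0]
      refine (sum_le_sum fun v _ => hR63 v).trans ?_
      rw [sum_const, smul_eq_mul, mul_comm]
    omega
  · have h1 := hMsum fun x => (x + 1).choose 2
    have h2 := hwsum fun x => (x + 1).choose 2
    have h3 : Pool.Agent.TH2.NU.condM M = ∑ v ∈ V, (Nf v * (a v + 1).choose 2 + Rf v * (v + 1).choose 2) := h1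
    rw [h3, hTd, h2, ← sum_add_distrib, ← sum_add_distrib]
    refine sum_congr rfl fun v hv => ?_
    have h4 := hcd v hv
    have e : nb w v * (v + 1).choose 2 = 64 * Nf v * (v + 1).choose 2 +
        Rf v * (v + 1).choose 2 := by
      rw [← hNR v]
      ring
    omega
  · have h1 : ∑ v ∈ V, Nf v * v * 64 ≤ ∑ v ∈ V, (2 * (g0 v + g1 v) + Nf v * v * 8) :=
      sum_le_sum hga
    rw [sum_add_distrib, ← mul_sum, sum_add_distrib, ← sum_mul, ← sum_mul, ← hX] at h1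
    omega

end Pool.Agent.Y205.AV
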