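import Pool.Agent.Y205.AV.Greedy
import Pool.Agent.Y205.FW.Donor

/-! Independence for blocks of equal multiplicities, and for arbitrary multisets. -/

set_option autoImplicit false

namespace Pool.Agent.Y205.AV

open Finset Pool.Agent.TH176.Nag Pool.Agent.TH603.Sur Pool.Agent.TH745.MN Pool.Agent.TH2.NU
open Pool.Agent.Y205.FW H932R3 Pool.Agent.TH641.UM

theorem sum_get {α : Type*} [AddCommMonoid α] (M : Multiset ℕ) (f : ℕ → α) :
    ∑ j : Fin M.toList.length, f (M.toList.get j) = (M.map f).sum := by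
  have h := Fin.sum_univ_fun_getElem M.toList f
  simp only [List.get_eq_getElem]
  rw [h]
  conv_rhs => rw [← Multiset.coe_toList M, Multiset.map_coe, Multiset.sum_coe]

theorem Sur_blk (hNod : StNodes) {g K d : ℕ} {H : ℝ} (xs : Multiset ℕ) (hK : 2 ≤ K)
    (hq : xs.card + 1 ≤ K ^ 2) (hKd : K ^ 2 + 2 ≤ K * (d + 3))
    (hH : H = ((d : ℝ) + 3 - 1 / (2 * K)) / (2 * K)) (hH1 : 1 ≤ H)
    (h1 : ∀ x ∈ xs, (x : ℝ) + 1 < H ∧ H ≤ g * (x + 1))
    (hs : (g : ℝ) * (sq1 xs : ℕ) < 4 * (K : ℝ) ^ 2 * H ^ 2) :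
    SurM (xs.bind fun x => Multiset.replicate g x) (TZ d) := by
  classical
  have hH0 : 0 < H := by linarith
  have hmem : ∀ j : Fin xs.toList.length, xs.toList.get j ∈ xs := fun j => by
    rw [← Multiset.mem_toList]
    exact List.get_mem _ _
  have key := hNod (J := Fin xs.toList.length) (K := K) (d := d) hK (by
      rw [Fintype.card_fin, Multiset.length_toList]; exact hq) hKd
    (κ := fun _ => Fin g) (w := fun z => xs.toList.get z.1)
    (σ := fun j => (g : ℝ) * ((xs.toList.get j : ℕ) + 1) ^ 2 / H ^ 2) (by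
      intro j τ hτ
      rw [← hH]
      exact NOK_block hH1 (h1 _ (hmem j)).2 (h1 _ (hmem j)).1 hτ) (by
      rw [← sum_div, ← mul_sum, div_lt_iff₀ (by positivity)]
      refine lt_of_le_of_lt (le_of_eq ?_) hs
      congr 1
      rw [sum_get xs fun x => ((x : ℝ) + 1) ^ 2]
      unfold sq1
      rw [Nat.cast_multiset_sum, Multiset.map_map]
      congr 1
      refine Multiset.map_congr rfl fun x _ => ?_
      simp)
  refine (SurM_iff (w := fun z : (Σ _ : Fin xs.toList.length, Fin g) => xs.toList.get z.1) ?_ _).2 key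
  unfold ms
  rw [Fintype.sum_sigma]
  have e : ∀ j : Fin xs.toList.length, ∑ _i : Fin g, ({xs.toList.get j} : Multiset ℕ) =
      Multiset.replicate g (xs.toList.get j) := fun j => by
    rw [sum_const, card_univ, Fintype.card_fin, Multiset.nsmul_singleton]
  rw [sum_congr rfl fun j _ => e j, sum_get xs fun x => Multiset.replicate g x]
  rfl

/-- **Independence for arbitrary multiplicities.** -/
theorem SurM_arb (hNod : StNodes) {M : Multiset ℕ} {B d : ℕ} (hB : ∀ v ∈ M, v + 1 ≤ B)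
    (hB1 : 1 ≤ B) (h : sq1 M + 42 * B ^ 2 ≤ (d + 1) * (d + 2)) : SurM M (TZ d) := by
  refine greedy (B := B) (A := 36 * B ^ 2) (Δ := (d + 1) * (d + 2)) ?_ M.card M 0 le_rfl
    (Nat.zero_le _) (fun v hv => ⟨Nat.zero_le _, hB v hv⟩) (by omega)
  clear h hB M
  intro M hM h
  obtain ⟨xs, a1, a2, a3⟩ := group_up (g := 36) (lo := B / 2) (by norm_num) M.card M B le_rfl
    (fun v hv => ⟨by have := (hM v hv).2; omega, (hM v hv).1⟩)
  have h3 := a3 (TZ d) 0
  rw [add_zero, add_zero] at h3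
  apply h3
  -- the sizes
  have hd6 : 6 * B ≤ d + 2 := by
    have h4 : (6 * B) ^ 2 ≤ (d + 2) ^ 2 := by
      have e1 : (6 * B) ^ 2 = 36 * B ^ 2 := by ring
      have e2 : (d + 2) ^ 2 = (d + 1) * (d + 2) + (d + 2) := by ring
      omega
    exact (Nat.pow_le_pow_iff_left (by norm_num)).1 h4
  obtain ⟨K, hK⟩ : ∃ K, K = (d + 2) / (2 * B) := ⟨_, rfl⟩
  have hK1 : K * (2 * B) ≤ d + 2 := by rw [hK]; exact Nat.div_mul_le_self _ _
  have hK2 : d + 2 < (K + 1) * (2 * B) := by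
    have := Nat.lt_div_mul_add (a := d + 2) (b := 2 * B) (by omega)
    rw [← hK] at this
    have e : (K + 1) * (2 * B) = K * (2 * B) + 2 * B := by ring
    omega
  have hK3 : 3 ≤ K := by
    rw [hK, Nat.le_div_iff_mul_le (by omega)]
    omega
  have hcard : xs.card + 1 ≤ K ^ 2 := by
    have g1 : xs.card * (B / 2 + 1) ^ 2 ≤ sq1 xs := sq1_ge fun x hx => (a1 x hx).1
    have g2 : B ^ 2 ≤ 4 * (B / 2 + 1) ^ 2 := by
      have e : 4 * (B / 2 + 1) ^ 2 = (2 * (B / 2 + 1)) ^ 2 := by ring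
      rw [e]
      exact Nat.pow_le_pow_left (by omega) 2
    have g3 : 9 * xs.card * B ^ 2 ≤ (d + 1) * (d + 2) := by
      have g4 : xs.card * B ^ 2 ≤ 4 * sq1 xs := by
        calc xs.card * B ^ 2 ≤ xs.card * (4 * (B / 2 + 1) ^ 2) := Nat.mul_le_mul_left _ g2
          _ = 4 * (xs.card * (B / 2 + 1) ^ 2) := by ring
          _ ≤ 4 * sq1 xs := Nat.mul_le_mul_left _ g1
      have e : 9 * xs.card * B ^ 2 = 9 * (xs.card * B ^ 2) := by ring
      omega
    have g5 : (d + 1) * (d + 2) < ((K + 1) * (2 * B)) ^ 2 := by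
      have g6 : (d + 2) ^ 2 < ((K + 1) * (2 * B)) ^ 2 := Nat.pow_lt_pow_left hK2 (by norm_num)
      have e2 : (d + 2) ^ 2 = (d + 1) * (d + 2) + (d + 2) := by ring
      omega
    have g7 : 9 * xs.card * B ^ 2 < 4 * (K + 1) ^ 2 * B ^ 2 := by
      have e : ((K + 1) * (2 * B)) ^ 2 = 4 * (K + 1) ^ 2 * B ^ 2 := by ring
      omega
    have g8 : 9 * xs.card < 4 * (K + 1) ^ 2 := Nat.lt_of_mul_lt_mul_right g7
    have g9 : 4 * (K + 1) ^ 2 + 8 ≤ 9 * K ^ 2 := by
      have e1 : 4 * (K + 1) ^ 2 = 4 * K ^ 2 + 8 * K + 4 := by ring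
      have e2 : 3 * K ≤ K * K := Nat.mul_le_mul_right _ hK3
      have e3 : K ^ 2 = K * K := sq K
      omega
    omega
  have hKr : (3 : ℝ) ≤ K := by exact_mod_cast hK3
  have hK0 : (0 : ℝ) < K := by linarith
  have hBr : (1 : ℝ) ≤ B := by exact_mod_cast hB1
  have hKi : 1 / (2 * (K : ℝ)) ≤ 1 / 2 := by
    rw [div_le_div_iff₀ (by positivity) (by norm_num)]
    linarith
  have hKi0 : 0 < 1 / (2 * (K : ℝ)) := by positivity
  obtain ⟨H, hH⟩ : ∃ H : ℝ, H = ((d : ℝ) + 3 - 1 / (2 * K)) / (2 * K) := ⟨_, rfl⟩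
  have hK1r : (K : ℝ) * (2 * B) ≤ d + 2 := by exact_mod_cast hK1
  have hK2r : (d : ℝ) + 3 ≤ (K + 1) * (2 * B) := by
    have : d + 3 ≤ (K + 1) * (2 * B) := hK2
    exact_mod_cast this
  have hHB : (B : ℝ) < H := by
    rw [hH, lt_div_iff₀ (by positivity)]
    linarith
  have hHB2 : H ≤ 2 * B := by
    rw [hH, div_le_iff₀ (by positivity)]
    have g1 : 3 * (B : ℝ) ≤ K * B := mul_le_mul_of_nonneg_right hKr (by linarith)
    linarith
  refine Sur_blk hNod xs (g := 36) (K := K) (H := H) (by omega) hcard ?_ hH (by linarith) ?_ ?_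
  · have g1 : K ≤ d + 2 := by
      have : K * 1 ≤ K * (2 * B) := Nat.mul_le_mul_left _ (by omega)
      omega
    have g4 : K * K ≤ K * (d + 2) := Nat.mul_le_mul_left _ g1
    have e : K * (d + 3) = K * (d + 2) + K := by ring
    have e2 : K ^ 2 = K * K := sq K
    omega
  · intro x hx
    have g1 : (x : ℝ) + 1 ≤ B := by exact_mod_cast (a1 x hx).2
    have g2 : B < 2 * (x + 1) := by have := (a1 x hx).1; omega
    have g3 : (B : ℝ) < 2 * (x + 1) := by exact_mod_cast g2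
    refine ⟨by linarith, ?_⟩
    push_cast
    linarith
  · have e4 : 4 * (K : ℝ) ^ 2 * H ^ 2 = ((d : ℝ) + 3 - 1 / (2 * K)) ^ 2 := by
      rw [hH]
      field_simp
      ring
    have g1 : ((d : ℝ) + 2) ^ 2 ≤ ((d : ℝ) + 3 - 1 / (2 * K)) ^ 2 :=
      pow_le_pow_left₀ (by positivity) (by linarith) 2
    have g2 : ((36 * sq1 xs : ℕ) : ℝ) ≤ (((d + 1) * (d + 2) : ℕ) : ℝ) := by
      exact_mod_cast (by omega : 36 * sq1 xs ≤ (d + 1) * (d + 2))
    push_cast at g2
    have e5 : ((d : ℝ) + 2) ^ 2 = (d + 1) * (d + 2) + (d + 2) := by ring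
    have g3 : (0 : ℝ) ≤ d := Nat.cast_nonneg _
    rw [e4]
    push_cast
    linarith

end Pool.Agent.Y205.AV
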