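import Pool.Agent.Y205.AV.Win
import Pool.Agent.Y205.FW.Inf

/-! Few different nonzero multiplicities, and any number of zeros. -/

set_option autoImplicit false

namespace Pool.Agent.Y205.AV

open Finset Module Pool.Agent.TH176.Nag Pool.Agent.TH603.Sur Pool.Agent.TH745.MN
open Pool.Agent.Y205.MD H932R3 Pool.Agent.Y205.FW

theorem inf_all0 {n : ℕ} {w : Fin n → ℕ} {μ r : ℕ} (hn0 : ∃ p, w p ≠ 0) (hμ : ∀ p, w p ≤ μ)
    (hr : ((univ.image w).erase 0).card ≤ r) (hQ : 40000 * r * μ ^ 2 ≤ ∑ p, w p ^ 2) :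
    ∃ F : MvPolynomial (Fin n × Fin 2) ℚ, F ≠ 0 ∧ ∀ {L : Type} [Field L] [CharZero L]
      (P : Fin n → Fin 2 → L), MvPolynomial.aeval (fun ij : Fin n × Fin 2 => P ij.1 ij.2) F ≠ 0 →
      ∀ d, ExpDim L w P d := by
  classical
  obtain ⟨p0, hp0⟩ := hn0
  obtain ⟨I, hI⟩ : ∃ I : Finset (Fin n), I = univ.filter fun p => w p ≠ 0 := ⟨_, rfl⟩
  have hmI : ∀ p, p ∈ I ↔ w p ≠ 0 := fun p => by rw [hI]; simp
  obtain ⟨g, hg⟩ : ∃ g : Fin I.card → Fin n, g = fun j => (I.equivFin.symm j : Fin n) := ⟨_, rfl⟩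
  have hginj : Function.Injective g := by
    rw [hg]
    exact fun j j' h => I.equivFin.symm.injective (Subtype.ext h)
  have hgI : ∀ j, g j ∈ I := fun j => by rw [hg]; exact (I.equivFin.symm j).2
  have hgs : ∀ p, w p ≠ 0 → ∃ j, g j = p := fun p hp =>
    ⟨I.equivFin ⟨p, (hmI p).2 hp⟩, by rw [hg]; simp⟩
  obtain ⟨v, hv⟩ : ∃ v : Fin I.card → ℕ, v = fun j => w (g j) := ⟨_, rfl⟩
  have hsum : ∀ t : ℕ → ℕ, t 0 = 0 → ∑ j, t (v j) = ∑ p, t (w p) := by
    intro t ht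
    have h1 : ∑ j, t (v j) = ∑ p ∈ I, t (w p) := by
      rw [hv, hg, ← Finset.sum_coe_sort I fun p => t (w p)]
      exact I.equivFin.symm.sum_comp fun p : I => t (w p)
    rw [h1]
    refine sum_subset (subset_univ I) fun p _ hp => ?_
    rw [hmI, not_not] at hp
    rw [hp, ht]
  have hvpos : ∀ j, 1 ≤ v j := fun j => by
    have := (hmI (g j)).1 (hgI j)
    rw [hv]
    exact Nat.one_le_iff_ne_zero.2 this
  have hI0 : 0 < I.card := card_pos.2 ⟨p0, (hmI p0).2 hp0⟩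
  have hvr : (univ.image v).card ≤ r := by
    refine le_trans (card_le_card fun x hx => ?_) hr
    obtain ⟨j, -, hj⟩ := mem_image.1 hx
    rw [mem_erase, ← hj]
    refine ⟨Nat.one_le_iff_ne_zero.1 (hvpos j), ?_⟩
    rw [hv]
    exact mem_image_of_mem _ (mem_univ _)
  have hcs := hsum (fun x => (x + 1).choose 2) rfl
  refine expDim_of_crit (by
    have g1 : (w p0 + 1).choose 2 ≤ ∑ p, (w p + 1).choose 2 :=
      single_le_sum (f := fun p => (w p + 1).choose 2) (fun _ _ => Nat.zero_le _) (mem_univ _)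
    have g2 : 0 < (w p0 + 1).choose 2 := Nat.choose_pos (by omega)
    omega) fun d _ hT2 => ?_
  have hex : Ex (Pool.Agent.TH387.SH.TF d) v :=
    ex_inf hI0 hvpos (fun j => by rw [hv]; exact hμ _) hvr
      (by rw [hsum (fun x => x ^ 2) (by norm_num)]; exact hQ) (by rw [hcs]; exact hT2)
  constructor
  · intro h1
    have hE : Emp v (↑(Pool.Agent.TH387.SH.TF d) : Set (ℤ × ℤ)) := Emp_of_Ex hex (by
      rw [Pool.Agent.TH387.SH.card_TF]
      unfold Pool.Agent.TH603.Sur.cond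
      rw [hcs]
      exact h1)
    rw [Pool.Agent.TH387.SH.coe_TF] at hE
    exact Emp_emb g hginj (fun j => by rw [hv]) hE
  · intro h1
    have hS : Sur v (↑(Pool.Agent.TH387.SH.TF d) : Set (ℤ × ℤ)) := Sur_of_Ex hex (by
      rw [Pool.Agent.TH387.SH.card_TF]
      unfold Pool.Agent.TH603.Sur.cond
      rw [hcs]
      exact h1)
    rw [Pool.Agent.TH387.SH.coe_TF] at hS
    exact Pool.Agent.TH745.MN.Sur_emb g hginj (fun j => by rw [hv]) hgs hS

end Pool.Agent.Y205.AV
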