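import Pool.Agent.Y205.AV.Main

/-! **All multiplicities**, with the window for few points. -/

set_option autoImplicit false

namespace Pool.Agent.Y205.AV

open Finset Module Pool.Agent.TH176.Nag Pool.Agent.TH603.Sur Pool.Agent.TH745.MN
open Pool.Agent.Y205.MD H932R3 Pool.Agent.Y205.FW Pool.Agent.TH2.NU
open Pool.Agent.TH641.UM (ms EmpM EmpM_iff)

/-- one of the two conditions: the vector and its virtual dimension are large -/
def Big {n : ℕ} (w : Fin n → ℕ) (μ d : ℕ) : Prop :=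
  25000 * (μ + 1) ^ 2 ≤ ∑ p, w p + 2 * gap w d ∨ 2 * ∑ p, w p + 52 * (μ + 1) ^ 2 ≤ gap w d

theorem ms_pos {n : ℕ} (w : Fin n → ℕ) : ms w = univ.val.map w := by
  unfold Pool.Agent.TH641.UM.ms
  rw [← Multiset.sum_map_singleton (univ.val.map w), Multiset.map_map]
  rfl

/-- **The window for few points.** -/
theorem dec_small {n : ℕ} {w : Fin n → ℕ} {μ d : ℕ} (hμ : ∀ p, w p ≤ μ)
    (h : 2 * ∑ p, w p + 52 * (μ + 1) ^ 2 ≤ gap w d) :
    ((d + 1) * (d + 2) ≤ ∑ p, w p * (w p + 1) → Emp w (TZ d)) ∧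
      (∑ p, w p * (w p + 1) ≤ (d + 1) * (d + 2) → Sur w (TZ d)) := by
  classical
  obtain ⟨I, hI⟩ : ∃ I : Finset (Fin n), I = univ.filter fun p => w p ≠ 0 := ⟨_, rfl⟩
  have hmI : ∀ p, p ∈ I ↔ w p ≠ 0 := fun p => by rw [hI]; simp
  obtain ⟨g, hg⟩ : ∃ g : Fin I.card → Fin n, g = fun j => (I.equivFin.symm j : Fin n) := ⟨_, rfl⟩
  have hginj : Function.Injective g := by
    rw [hg]
    exact fun j j' h => I.equivFin.symm.injective (Subtype.ext h)
  have hgI : ∀ j, g j ∈ I := fun j => by rw [hg]; exact (I.equivFin.symm j).2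
  have hgs : ∀ p, w p ≠ 0 → ∃ j, g j = p := fun p hp =>
    ⟨I.equivFin ⟨p, (hmI p).2 hp⟩, by rw [hg]; simp⟩
  obtain ⟨v, hv⟩ : ∃ v : Fin I.card → ℕ, v = fun j => w (g j) := ⟨_, rfl⟩
  have hsum : ∀ t : ℕ → ℕ, t 0 = 0 → ∑ j, t (v j) = ∑ p, t (w p) := by
    intro t ht
    have h1 : ∑ j, t (v j) = ∑ p ∈ I, t (w p) := by
      rw [hv, hg, ← Finset.sum_coe_sort I fun p => t (w p)]
      exact I.equivFin.symm.sum_comp fun p : I => t (w p)
    rw [h1]
    refine sum_subset (subset_univ I) fun p _ hp => ?_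
    rw [hmI, not_not] at hp
    rw [hp, ht]
  have hvpos : ∀ j, 1 ≤ v j := fun j => by
    have := (hmI (g j)).1 (hgI j)
    rw [hv]
    exact Nat.one_le_iff_ne_zero.2 this
  have hvμ : ∀ j, v j ≤ μ := fun j => by rw [hv]; exact hμ _
  obtain ⟨M, hM⟩ : ∃ M : Multiset ℕ, M = univ.val.map v := ⟨_, rfl⟩
  have hmsM : ms v = M := by rw [ms_pos, hM]
  have hmem : ∀ x ∈ M, 1 ≤ x ∧ x ≤ μ := by
    intro x hx
    rw [hM] at hx
    obtain ⟨j, -, rfl⟩ := Multiset.mem_map.1 hx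
    exact ⟨hvpos j, hvμ j⟩
  have hMsum : ∀ t : ℕ → ℕ, (M.map t).sum = ∑ j, t (v j) := by
    intro t
    rw [hM, Multiset.map_map]
    rfl
  have hsqs : sqs M = ∑ p, w p ^ 2 := by
    unfold sqs
    rw [hMsum, hsum (fun x => x ^ 2) (by norm_num)]
  have hS : M.sum = ∑ p, w p := by
    have := hMsum fun x => x
    rw [Multiset.map_id'] at this
    rw [this, hsum (fun x => x) rfl]
  have hcard : M.card ≤ M.sum := by
    have h1 : (M.map fun _ => 1).sum ≤ (M.map fun x => x).sum :=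
      Multiset.sum_map_le_sum_map _ _ fun x hx => (hmem x hx).1
    rwa [Multiset.map_id', Multiset.map_const', Multiset.sum_replicate, smul_eq_mul, mul_one] at h1
  have hsq1 := sq1_eq M
  have hw2 : ∑ p, w p * (w p + 1) = ∑ p, w p ^ 2 + ∑ p, w p := by
    rw [← sum_add_distrib]
    exact sum_congr rfl fun p _ => by ring
  have e2 : (d + 1) * (d + 2) = d ^ 2 + 3 * d + 2 := by ring
  have hμ2 : μ ^ 2 ≤ (μ + 1) ^ 2 := Nat.pow_le_pow_left (Nat.le_succ μ) 2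
  unfold gap at h
  constructor
  · intro hle
    have hμ1 : 1 ≤ μ := by
      by_contra h0
      have h0' : μ = 0 := by omega
      have h1 : ∑ p, w p * (w p + 1) = 0 := sum_eq_zero fun p _ => by
        have := hμ p
        have h2 : w p = 0 := by omega
        rw [h2, zero_mul]
      omega
    have hE : EmpM M (TZ d) := EmpM_arb hmem hμ1 (by omega)
    have hE' : Emp v (TZ d) := (EmpM_iff hmsM _).1 hE
    exact Emp_emb g hginj (fun j => by rw [hv]) hE'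
  · intro hle
    have hS' : SurM M (TZ d) := SurM_arb Pool.Agent.Y901.FW.nodes (B := μ + 1)
      (fun x hx => Nat.succ_le_succ (hmem x hx).2) (by omega) (by omega)
    have hS2 : Sur v (TZ d) := (SurM_iff hmsM _).1 hS'
    exact Pool.Agent.TH745.MN.Sur_emb g hginj (fun j => by rw [hv]) hgs hS2

theorem dec_big {n : ℕ} {w : Fin n → ℕ} {μ d : ℕ} (hμ : ∀ p, w p ≤ μ) (h : Big w μ d) :
    ((d + 1) * (d + 2) ≤ ∑ p, w p * (w p + 1) → Emp w (TZ d)) ∧
      (∑ p, w p * (w p + 1) ≤ (d + 1) * (d + 2) → Sur w (TZ d)) :=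
  h.elim (fun h => dec_all hμ h) fun h => dec_small hμ h

/-- **All vectors of multiplicities.** -/
theorem big_vectors {n : ℕ} (w : Fin n → ℕ) :
    ∃ F : MvPolynomial (Fin n × Fin 2) ℚ, F ≠ 0 ∧ ∀ {L : Type} [Field L] [CharZero L]
      (P : Fin n → Fin 2 → L), MvPolynomial.aeval (fun ij : Fin n × Fin 2 => P ij.1 ij.2) F ≠ 0 →
      ∀ d μ : ℕ, (∀ p, w p ≤ μ) → Big w μ d → ExpDim L w P d := by
  obtain ⟨F, h1, h2⟩ := expDim_two (w := w)
    (A := fun d => (d + 1) * (d + 2) ≤ ∑ p, w p * (w p + 1) ∧ ∃ μ, (∀ p, w p ≤ μ) ∧ Big w μ d)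
    (B := fun d => ∑ p, w p * (w p + 1) ≤ (d + 1) * (d + 2) ∧ ∃ μ, (∀ p, w p ≤ μ) ∧ Big w μ d)
    (N := ∑ p, w p * (w p + 1))
    (fun d hd => by
      have h := hd.1
      have e : (d + 1) * (d + 2) = d * d + 3 * d + 2 := by ring
      omega)
    (fun d hd => by
      obtain ⟨h, μ, hμ, hd⟩ := hd
      exact (dec_big hμ hd).1 h)
    (fun d hd => by
      obtain ⟨h, μ, hμ, hd⟩ := hd
      exact (dec_big hμ hd).2 h)
  refine ⟨F, h1, fun {L} _ _ P hP d μ hμ hd => h2 P hP d ?_⟩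
  rcases le_total ((d + 1) * (d + 2)) (∑ p, w p * (w p + 1)) with h | h
  · exact Or.inl ⟨h, μ, hμ, hd⟩
  · exact Or.inr ⟨h, μ, hμ, hd⟩

end Pool.Agent.Y205.AV
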